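import Pool.Agent.GD.Defs

/-!
# General d: classes of configurations and the main statements

Note 4211 (plan part CL).  `kap x` is the density of the points of exponent `x` (number / `n^x`),
`gg kap D = [t^D] exp (t - ∑ kap x t^x)`.  The support of a point of the level `j` which vanishes on the
blocks of `A ⊆ range j` is `K = range j \ A`; `w = x - |K|`.
-/

set_option autoImplicit false

namespace Pool.Agent.GD

open Finset

/-! ### Critical densities -/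

/-- `[t^D] exp (t - ∑_x kap x t^x)` (`x ≥ 2`). -/
noncomputable def gg (kap : ℕ → ℝ) : ℕ → ℝ
  | 0 => 1
  | D + 1 => (gg kap D - ∑ x : Fin D, ((D + 1 - x.1 : ℕ) : ℝ) * kap (D + 1 - x.1) * gg kap x.1) / (D + 1)
decreasing_by
  · omega
  · have := x.2; omega

/-- A critical vector of densities with the largest exponent `e`. -/
structure Crit (d e : ℕ) (kap : ℕ → ℝ) : Prop where
  nonneg : ∀ x, 0 ≤ kap x
  supp : ∀ x, kap x ≠ 0 → 2 ≤ x ∧ x ≤ e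
  pos : 0 < kap e
  two : 2 ≤ e
  lt : e < d
  crit : gg kap d = 0
  gpos : ∀ D < d, 0 < gg kap D

/-- The constants of the classes. -/
structure Par where
  d : ℕ
  e : ℕ
  kap : ℕ → ℝ
  /-- the windows of the levels -/
  eps : ℕ → ℝ
  /-- the distances of the values `xp`, `xm` for the kinds with `max K = i - 1` -/
  bet : ℕ → ℝ
  /-- the two values for the kinds `|K| = x`, divided by `∏ c` -/
  xp : ℕ → Finset ℕ → ℚ
  xm : ℕ → Finset ℕ → ℚ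
  /-- the constant for the numbers of the clusters -/
  M : ℕ
  /-- the sizes of the blocks -/
  c : ℕ → ℕ

variable (P : Par)

/-- The number of the levels. -/
def Par.J : ℕ := P.d - P.e

/-- The same constants with other sizes of the blocks. -/
def Par.wc (c : ℕ → ℕ) : Par := { P with c := c }

/-- `∏_{i ∈ K} c i`. -/
def Par.cc (K : Finset ℕ) : ℕ := ∏ i ∈ K, P.c i

/-- The natural density of the kind `(x, K)`, without the factor `∏ c`. -/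
noncomputable def Par.nat (x : ℕ) (K : Finset ℕ) : ℝ := P.kap x * (x.descFactorial K.card : ℕ)

/-- The conditions on the constants without the sizes; `Cs` = the ratio, `E` = the bound for the windows. -/
structure Par.Ok (Cs E : ℝ) : Prop extends Crit P.d P.e P.kap where
  eps0 : 0 < P.eps 0
  eb : ∀ j < P.J, Cs * P.eps j ≤ P.bet (j + 1)
  be : ∀ j < P.J, Cs * P.bet (j + 1) ≤ P.eps (j + 1)
  epsJ : P.eps P.J ≤ E
  xp : ∀ x K, 2 ≤ x → K ⊆ range P.J → K.card = x → ∀ i : ℕ, K.max = i →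
    P.nat x K + P.bet (i + 1) / 2 ≤ P.xp x K ∧ (P.xp x K : ℝ) ≤ P.nat x K + P.bet (i + 1)
  xm : ∀ x K, 2 ≤ x → K ⊆ range P.J → K.card = x → ∀ i : ℕ, K.max = i → P.kap x ≠ 0 →
    (P.xm x K : ℝ) ≤ P.nat x K - P.bet (i + 1) / 2 ∧ P.nat x K - P.bet (i + 1) ≤ P.xm x K
  xm0 : ∀ x K, P.kap x = 0 → P.xm x K = 0

/-- The conditions on the sizes: divisible by `N`, and every size is at least a number which depends on the
sizes with larger indices. -/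
def Hier (N : ℕ) (F : (ℕ → ℕ) → ℕ) (J : ℕ) (c : ℕ → ℕ) : Prop :=
  ∀ i < J, N ∣ c i ∧ 1 ≤ c i ∧ F (fun x => if i < x ∧ x < J then c x else 0) ≤ c i

/-! ### Clusters -/

/-- The types of the clusters created at the level `i`. -/
inductive CT : Type
  | pl (k : ℕ) (S : Finset ℕ) : CT
  | b0 (S : Finset ℕ) : CT
  | br (r : ℕ) : CT
  deriving DecidableEq

/-- The vanishing sets of the members. -/
def mbs (i j k : ℕ) (S : Finset ℕ) : List (Finset ℕ) :=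
  if k = 1 then [(range j).erase i \ S]
  else (range j).erase i :: List.replicate (k - 1) ((range j).erase i \ S)

/-- The vanishing sets of the members of the clusters with the support `range r`. -/
def mbr (i j k e r : ℕ) : List (Finset ℕ) :=
  (List.range k).map fun s => (range j).erase i \ (Ico (s * (e - 1)) ((s + 1) * (e - 1)) ∩ range r)

/-- The kind of the level `j` of a cluster created at the level `i`. -/
def CT.kd (d e i j : ℕ) : CT → Kd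
  | .pl k S => .cl e 0 i (mbs i j k S)
  | .b0 S => .cl e ((d - i - 1) % (e - 1)) i (mbs i j ((d - i - 1) / (e - 1)) S)
  | .br r => .cl e ((d - i + r - 1) % (e - 1)) i (mbr i j ((d - i + r - 1) / (e - 1)) e r)

/-- The allowed types. -/
def CT.Ok (d e i j : ℕ) : CT → Prop
  | .pl k S => 2 ≤ k ∧ k ≤ (d - i - 1) / (e - 1) ∧ S ⊆ Ico (i + 1) j ∧ S.card ≤ e - 1
  | .b0 S => (d - i - 1) % (e - 1) ≠ 0 ∧ S ⊆ Ico (i + 1) j ∧ S.card ≤ e - 2
  | .br r => 1 ≤ r ∧ r ≤ i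

/-- The exponent of the bound for the number. -/
def CT.w (e : ℕ) : CT → ℕ
  | .pl _ S => e - 1 - S.card
  | .b0 S => e - 2 - S.card
  | .br _ => 0

/-- The constant of the bound for the number. -/
def CT.mm (P : Par) : CT → ℕ
  | .pl _ S => P.M * P.d ^ S.card * P.cc S
  | .b0 S => P.M * P.d ^ S.card * P.cc S
  | .br r => P.M * P.c (r - 1)

/-! ### The classes -/

/-- The class of the level `j`: nothing is required of the number of the points of the kind `(e, ∅)`. -/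
structure Cls (j n : ℕ) (ms : Multiset Kd) : Prop where
  mem : ∀ k ∈ ms, (∃ x A, k = .ord x A ∧ 2 ≤ x ∧ x < P.d ∧ A ⊆ range j ∧ (range j \ A).card ≤ x) ∨
    ∃ i < j, ∃ τ : CT, τ.Ok P.d P.e i j ∧ k = τ.kd P.d P.e i j
  win : ∀ x A, 2 ≤ x → x < P.d → A ⊆ range j → (range j \ A).card < x → (x ≠ P.e ∨ A ≠ range j) →
    |(npt ms x A : ℝ) - P.nat x (range j \ A) * P.cc (range j \ A) * (n : ℝ) ^ (x - (range j \ A).card)| ≤
      P.eps j * P.cc (range j \ A) * (n : ℝ) ^ (x - (range j \ A).card)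
  zero : ∀ x A, 2 ≤ x → x < P.d → A ⊆ range j → (range j \ A).card = x →
    (npt ms x A : ℚ) = P.xp x (range j \ A) * P.cc (range j \ A) ∨
      (npt ms x A : ℚ) = P.xm x (range j \ A) * P.cc (range j \ A)
  cnt : ∀ i < j, ∀ τ : CT, τ.Ok P.d P.e i j → ms.count (τ.kd P.d P.e i j) ≤ τ.mm P * n ^ τ.w P.e

/-- The general dimension and the virtual dimension of the level `j`. -/
noncomputable def Par.H (j n : ℕ) (ms : Multiset Kd) : ℕ := HL P.d P.d P.c n j ms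

noncomputable def Par.v (j n : ℕ) (ms : Multiset Kd) : ℤ := vd P.d (range j) P.c n ms

/-- Exactness on the level `j`. -/
def PROP (j : ℕ) : Prop := ∃ n₀ : ℕ, ∀ n, n₀ ≤ n → ∀ ms, Cls P j n ms →
  (P.H j n ms : ℤ) ≤ max 0 (P.v j n ms)

/-- The main kind on the level `j`. -/
abbrev Par.u (j : ℕ) : Kd := .ord P.e (range j)

/-- Exactness off the layer on the level `j` (the natural size of `v` is `∏ c * n^(d - j)`). -/
def SUB (j : ℕ) (η ρ : ℝ) : Prop := ∃ n₀ : ℕ, ∀ n, n₀ ≤ n → ∀ ms, Cls P j n ms →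
  (ms.count (P.u j) : ℝ) ≤ (P.kap P.e + ρ) * (n : ℝ) ^ P.e →
    η * P.cc (range j) * (n : ℝ) ^ (P.d - j) ≤ (P.v j n ms : ℝ) → (P.H j n ms : ℤ) ≤ P.v j n ms

/-- The numerical step on the level `j`; the number of the points of the main kind is within `Cw * eps j`
of the natural one. -/
def NUM (j : ℕ) (η Cw ρ : ℝ) : Prop := ∃ n₀ : ℕ, ∀ n, n₀ ≤ n → ∀ ms, Cls P j n ms → ∀ g : ℕ,
  (g : ℝ) ≤ η * P.cc (range j) * (n : ℝ) ^ (P.d - j) →
  |(P.v j n ms : ℝ) - g| ≤ η * P.cc (range j) * (n : ℝ) ^ (P.d - j - 1) →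
  |(ms.count (P.u j) : ℝ) - P.kap P.e * (n : ℝ) ^ P.e| ≤ Cw * P.eps j * (n : ℝ) ^ P.e →
    ∃ (ms' A : Multiset Kd) (r : ℕ), Cls P (j + 1) n ms' ∧ Cls P j (n - P.c j) A ∧ 1 ≤ r ∧
      (A.count (P.u j) : ℝ) ≤ (P.kap P.e + ρ) * ((n - P.c j : ℕ) : ℝ) ^ P.e ∧
      P.v j (n - P.c j) A = g + r ∧ ms'.bind (un j) = ms ∧
      ms'.bind (tr j) = A + Multiset.replicate r (sm P.d)

/-- The dependence on the number of the points of the main kind. -/
def WIN (j : ℕ) (η Cw ρ : ℝ) : Prop := ∃ n₀ : ℕ, ∀ n, n₀ ≤ n → ∀ ms, Cls P j n ms →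
  (ms.count (P.u j) : ℝ) ≤ (P.kap P.e + ρ) * (n : ℝ) ^ P.e →
    (P.v j n (P.u j ::ₘ ms) < P.v j n ms ∧
      ((P.v j n ms - P.v j n (P.u j ::ₘ ms) : ℤ) : ℝ) ≤ η * P.cc (range j) * (n : ℝ) ^ (P.d - j - 1)) ∧
    (|(P.v j n ms : ℝ)| ≤ η * P.cc (range j) * (n : ℝ) ^ (P.d - j) →
      |(ms.count (P.u j) : ℝ) - P.kap P.e * (n : ℝ) ^ P.e| ≤ Cw * P.eps j * (n : ℝ) ^ P.e) ∧
    ((P.kap P.e + ρ / 2) * (n : ℝ) ^ P.e ≤ ms.count (P.u j) → P.v j n ms < 0) ∧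
    ((ms.count (P.u j) : ℝ) ≤ (P.kap P.e - ρ) * (n : ℝ) ^ P.e → 0 < P.v j n ms)

/-- The target of the block ALPHA. -/
def TargetSub : Prop := ∀ (d e : ℕ) (kap : ℕ → ℝ), Crit d e kap → ∃ Cs E ρ : ℝ, 1 ≤ Cs ∧ 0 < E ∧ 0 < ρ ∧
  ∀ P : Par, P.d = d → P.e = e → P.kap = kap → P.Ok Cs E → ∀ η : ℝ, 0 < η →
    ∃ (N : ℕ) (F : (ℕ → ℕ) → ℕ), 0 < N ∧ ∀ c, Hier N F P.J c → ∀ j ≤ P.J, SUB (P.wc c) j η ρ

/-- The target of the blocks BETA, GAMMA, TOP (`SUB` on the last level gives the exactness of the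
configurations without points of the kind `(e, ∅)`). -/
def TargetTop : Prop := ∀ (d e : ℕ) (kap : ℕ → ℝ), Crit d e kap → ∃ Cs E η : ℝ, 1 ≤ Cs ∧ 0 < E ∧ 0 < η ∧
  ∀ P : Par, P.d = d → P.e = e → P.kap = kap → P.Ok Cs E →
    ∃ (N : ℕ) (F : (ℕ → ℕ) → ℕ), 0 < N ∧ ∀ c, Hier N F P.J c → SUB (P.wc c) P.J η 0 → PROP (P.wc c) P.J

/-- The target of the first half of the numerical block. -/
def TargetWin : Prop := ∀ (d e : ℕ) (kap : ℕ → ℝ), Crit d e kap → ∃ ρ₀ : ℝ, 0 < ρ₀ ∧ ∀ ρ : ℝ, 0 < ρ → ρ ≤ ρ₀ →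
  ∃ Cw Cs E : ℝ, 1 ≤ Cw ∧ 1 ≤ Cs ∧ 0 < E ∧ ∀ P : Par, P.d = d → P.e = e → P.kap = kap → P.Ok Cs E →
    (∀ i, 1 ≤ P.c i) → ∀ j ≤ P.J, ∀ η : ℝ, 0 < η → η ≤ P.eps 0 → WIN P j η Cw ρ

/-- The target of the numerical block. -/
def TargetNum : Prop := ∀ (d e : ℕ) (kap : ℕ → ℝ), Crit d e kap → ∀ Cw ρ : ℝ, 1 ≤ Cw → 0 < ρ →
  ∃ Cs E : ℝ, 1 ≤ Cs ∧ 0 < E ∧ ∃ M₀ : ℕ,
    ∀ P : Par, P.d = d → P.e = e → P.kap = kap → P.Ok Cs E → M₀ ≤ P.M →
      ∃ (N : ℕ) (F : (ℕ → ℕ) → ℕ), 0 < N ∧ ∀ c, Hier N F P.J c → ∀ j < P.J, ∀ η : ℝ, 0 < η →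
        η ≤ P.eps 0 → NUM (P.wc c) j η Cw ρ

/-- The result for a critical vector of densities. -/
def TargetZero : Prop := ∀ (d e : ℕ) (kap : ℕ → ℝ), Crit d e kap → ∃ (η : ℝ) (n₀ : ℕ), 0 < η ∧
  ∀ n, n₀ ≤ n → ∀ ms : Multiset Kd, (∀ k ∈ ms, ∃ x, k = .ord x ∅ ∧ 2 ≤ x ∧ x < d) →
    (∀ x, |(ms.count (.ord x ∅) : ℝ) - kap x * (n : ℝ) ^ x| ≤ η * (n : ℝ) ^ x) →
      ∀ c : ℕ → ℕ, (HL d d c n 0 ms : ℤ) ≤ max 0 (vd d ∅ c n ms)

end Pool.Agent.GD
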