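import Pool.Agent.GD.TT

/-!
# General d: semistability

`E` a space of tensors (on the slots off `A`), `VE A E` = tensors all slices of which are in `E`.  If the points
`m` and `U` units (points of kind `A`) kill everything, then `dim (V ∩ VE A E) ≤ U * dim E` for ALL `E`:
the contraction with a unit maps `VE A E` to `E`.
-/

set_option autoImplicit false

namespace Pool.Agent.GD

open Finset MvPolynomial Pool.Agent.H51.TB

variable {ι : Type} [Fintype ι] [DecidableEq ι] {c : ι → ℕ}

/-- the index which is `w` on `A` and `e` off `A` -/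
def gl (A : Finset ι) (w e : ∀ i, Fin (c i)) : ∀ i, Fin (c i) := fun j => if j ∈ A then w j else e j

/-- the slice of `F` at the index `w` of the slots `A` -/
def sl (A : Finset ι) (w : ∀ i, Fin (c i)) : ((∀ i, Fin (c i)) → ℂ) →ₗ[ℂ] ((∀ i, Fin (c i)) → ℂ) where
  toFun F := fun e => F (gl A w e)
  map_add' _ _ := rfl
  map_smul' _ _ := rfl

/-- the tensors all slices of which are in `E` -/
def VE (A : Finset ι) (E : Submodule ℂ ((∀ i, Fin (c i)) → ℂ)) :
    Submodule ℂ ((∀ i, Fin (c i)) → ℂ) where
  carrier := {F | ∀ w, sl A w F ∈ E}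
  zero_mem' := fun w => by rw [map_zero]; exact E.zero_mem
  add_mem' := fun hF hG w => by rw [map_add]; exact E.add_mem (hF w) (hG w)
  smul_mem' := fun a F hF w => by rw [map_smul]; exact E.smul_mem a (hF w)

theorem mem_VE {A : Finset ι} {E : Submodule ℂ ((∀ i, Fin (c i)) → ℂ)} {F : (∀ i, Fin (c i)) → ℂ} :
    F ∈ VE A E ↔ ∀ w, sl A w F ∈ E := Iff.rfl

/-- the contraction as a linear map -/
noncomputable def ctrL (S : Finset ι) (y : (Σ i, Fin (c i)) → ℂ) :
    ((∀ i, Fin (c i)) → ℂ) →ₗ[ℂ] ((∀ i, Fin (c i)) → ℂ) where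
  toFun F := fun w => ctr S y F w
  map_add' F G := by
    funext w
    show ctr S y (F + G) w = ctr S y F w + ctr S y G w
    unfold ctr
    rw [← Finset.sum_add_distrib]
    refine Finset.sum_congr rfl fun e _ => ?_
    split_ifs
    · rw [Pi.add_apply, mul_add]
    · rw [add_zero]
  map_smul' a F := by
    funext w
    show ctr S y (a • F) w = a * ctr S y F w
    unfold ctr
    rw [Finset.mul_sum]
    refine Finset.sum_congr rfl fun e _ => ?_
    split_ifs
    · rw [Pi.smul_apply, smul_eq_mul]; ring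
    · rw [mul_zero]

/-- the contraction with a unit is a linear combination of the slices (every slice counted with the multiplicity
`∏_{i off A} c i`) -/
theorem ctrL_mem {A : Finset ι} {E : Submodule ℂ ((∀ i, Fin (c i)) → ℂ)} (hc : ∀ i, 0 < c i)
    {F : (∀ i, Fin (c i)) → ℂ} (hF : F ∈ VE A E) (y : (Σ i, Fin (c i)) → ℂ) : ctrL A y F ∈ E := by
  classical
  have e₀ : ∀ i, Fin (c i) := fun i => ⟨0, hc i⟩
  -- the indices which are `e₀` off `A`
  let s : Finset (∀ i, Fin (c i)) := Finset.univ.filter fun w => ∀ j, j ∉ A → w j = e₀ j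
  have h1 : ctrL A y F = ∑ w ∈ s, (∏ j ∈ A, y ⟨j, w j⟩) • sl A w F := by
    funext e
    rw [Finset.sum_apply]
    show ctr A y F e = _
    unfold ctr
    rw [← Finset.sum_filter]
    refine Finset.sum_nbij' (fun x => gl A x e₀) (fun w => gl A w e) ?_ ?_ ?_ ?_ ?_
    · intro x _
      simp only [s, Finset.mem_filter, Finset.mem_univ, true_and]
      intro j hj
      simp [gl, hj]
    · intro w _
      simp only [Finset.mem_filter, Finset.mem_univ, true_and]
      intro j hj
      simp [gl, hj]
    · intro x hx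
      simp only [Finset.mem_filter, Finset.mem_univ, true_and] at hx
      funext j
      by_cases hj : j ∈ A
      · simp [gl, hj]
      · simp [gl, hj, hx j hj]
    · intro w hw
      simp only [s, Finset.mem_filter, Finset.mem_univ, true_and] at hw
      funext j
      by_cases hj : j ∈ A
      · simp [gl, hj]
      · simp [gl, hj, hw j hj]
    · intro x hx
      simp only [Finset.mem_filter, Finset.mem_univ, true_and] at hx
      rw [Pi.smul_apply, smul_eq_mul]
      congr 1
      · refine Finset.prod_congr rfl fun j hj => ?_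
        simp [gl, hj]
      · show F x = F (gl A (gl A x e₀) e)
        congr 1
        funext j
        by_cases hj : j ∈ A
        · simp [gl, hj]
        · simp [gl, hj, hx j hj]
  rw [h1]
  exact Submodule.sum_mem _ fun w _ => E.smul_mem _ (hF w)

/-- SEMISTABILITY. -/
theorem semist (hc : ∀ i, 0 < c i) {P : Type} (m : P → Finset ι) (p : P → (Σ i, Fin (c i)) → ℂ)
    (A : Finset ι) (U : ℕ) (q : Fin U → (Σ i, Fin (c i)) → ℂ)
    (h : (TS ι c).V (Sum.elim m fun _ : Fin U => A) (Sum.elim p q) = ⊥)
    (E : Submodule ℂ ((∀ i, Fin (c i)) → ℂ)) :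
    Module.finrank ℂ ((TS ι c).V m p ⊓ VE A E : Submodule ℂ ((∀ i, Fin (c i)) → ℂ)) ≤
      U * Module.finrank ℂ E := by
  classical
  let Φ : ((TS ι c).V m p ⊓ VE A E : Submodule ℂ ((∀ i, Fin (c i)) → ℂ)) →ₗ[ℂ] (Fin U → E) :=
    LinearMap.pi fun u => ((ctrL A (q u)).comp (Submodule.subtype _)).codRestrict E fun F =>
      ctrL_mem hc F.2.2 (q u)
  have h1 := LinearMap.finrank_le_finrank_of_injective (f := Φ) (by
    rw [← LinearMap.ker_eq_bot, LinearMap.ker_eq_bot']
    intro F hF
    have h2 : (F : (∀ i, Fin (c i)) → ℂ) ∈ (TS ι c).V (Sum.elim m fun _ : Fin U => A)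
        (Sum.elim p q) := by
      rw [mem_TS]
      rintro (i | u) w
      · exact (mem_TS m p _).1 F.2.1 i w
      · have h3 := congrFun hF u
        have h4 := congrArg Subtype.val h3
        exact congrFun h4 w
    rw [h, Submodule.mem_bot] at h2
    exact Subtype.ext h2)
  rwa [Module.finrank_pi_fintype, Finset.sum_const, Finset.card_univ, Fintype.card_fin,
    smul_eq_mul] at h1

/-- for general positions of some of the points there are positions of the others -/
theorem gn_exists_right {κ κ' ν : Type} {Q : (κ ⊕ κ' → ν → ℂ) → Prop} (h : Gn (κ ⊕ κ') ν Q) :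
    Gn κ ν fun p => ∃ q, Q (Sum.elim p q) := by
  have h1 : Gn (κ' ⊕ κ) ν fun r => Q (Sum.elim (fun k => r (Sum.inr k)) fun k => r (Sum.inl k)) := by
    have h2 := Gn.comap (κ := κ' ⊕ κ) (κ' := κ ⊕ κ') Sum.swap (fun a b hab => by
      have := congrArg Sum.swap hab
      simpa using this) h
    refine h2.mono fun r hr => ?_
    have e1 : (fun i : κ ⊕ κ' => r i.swap) =
        Sum.elim (fun k => r (Sum.inr k)) fun k => r (Sum.inl k) := by
      funext i
      cases i <;> rfl
    rwa [e1] at hr
  obtain ⟨q, hq⟩ := h1.fix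
  exact hq.mono fun p hp => ⟨q, hp⟩

/-- SEMISTABILITY, general positions. -/
theorem semist_gn (hc : ∀ i, 0 < c i) {P : Type} [Fintype P] (m : P → Finset ι) (A : Finset ι)
    (U : ℕ) (h : (TS ι c).gd (Sum.elim m fun _ : Fin U => A) = 0) :
    Gn P (Σ i, Fin (c i)) fun p => ∀ E : Submodule ℂ ((∀ i, Fin (c i)) → ℂ),
      Module.finrank ℂ ((TS ι c).V m p ⊓ VE A E : Submodule ℂ ((∀ i, Fin (c i)) → ℂ)) ≤
        U * Module.finrank ℂ E := by
  have h1 := gn_gd (TS ι c) (Sum.elim m fun _ : Fin U => A)
  refine (gn_exists_right h1).mono fun p hp E => ?_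
  obtain ⟨q, hq⟩ := hp
  rw [h] at hq
  exact semist hc m p A U q (Submodule.finrank_eq_zero.1 hq) E

end Pool.Agent.GD
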