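import Pool.Agent.V7.Defs
import Pool.Agent.V7.ST.Ms
import Mathlib.RingTheory.PowerSeries.Basic

/-!
# General d: definitions (exactness in the layer for every fixed degree)

Notes 4143, 4154, 4159, 4171, 4181, 4193.  Forms of degree `D ≤ d` in the variables `s : ν`, with block
numbers `β s : ℕ`.  `Z_i` is the space of the block `i`, `L_i` the subspace where the block `i` vanishes.
The level `j`: all monomials meet the blocks `0, …, j - 1` (of the dimensions `c 0, …, c (j - 1)`), the other
variables form `W`.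

Kinds of objects (`A` = the set of the blocks on which a point vanishes):

* `ord e A`: the condition `F(q^e x) = 0` for all `x`, i.e. multiplicity `D + 1 - e` in degree `D`;
* `cl e dl i As`: a cluster created at the level `i`: `k = As.length` points `q_x` of exponent `e`, the point
  `x` vanishes on the blocks of `As x` (`i ∉ As x`), the sum `u` of all of them vanishes on the block `i`, and
  the additional conditions `F(u^(k(e-1)) z^κ x) = 0`, `1 ≤ κ ≤ dl`, `x` a product of variables off the
  block `i`, `z` a vector of the block `i`.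

A position of an object is a function on `ν × Fin (d + 1)`: the members, `Fin.last d` is `z`.
-/

set_option autoImplicit false
set_option linter.unusedSectionVars false

namespace Pool.Agent.GD

open Finset MvPolynomial Pool.Agent.H51.TB Pool.Agent.H54.V7 Pool.Agent.V7.ST
open Pool.Agent.H18.Ex (tcr)
open Pool.Agent.V7 (msk)

/-- The kinds of objects. -/
inductive Kd : Type
  | ord (e : ℕ) (A : Finset ℕ) : Kd
  | cl (e dl i : ℕ) (As : List (Finset ℕ)) : Kd
  deriving DecidableEq

/-- The intersection of the sets of a list. -/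
def inter (As : List (Finset ℕ)) : Finset ℕ := (As.headD ∅).filter fun x => ∀ A ∈ As, x ∈ A

/-- The exponent. -/
def Kd.ex : Kd → ℕ
  | .ord e _ => e
  | .cl e _ _ _ => e

/-- The number of the points of an object. -/
def Kd.nm : Kd → ℕ
  | .ord _ _ => 1
  | .cl _ _ _ As => As.length

/-- The exponent of the trace of a cluster. -/
def trx (e dl k : ℕ) : ℕ := k * (e - 1) + 1 + dl

section

variable {ν : Type} [Fintype ν] [DecidableEq ν]

/-- The points of an object at a position. -/
def pt {R : Type} [CommRing R] {d : ℕ} (β : ν → ℕ) : Kd → Fin (d + 1) → (ν × Fin (d + 1) → R) → ν → R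
  | .ord _ A, _, q => msk β A fun s => q (s, 0)
  | .cl _ _ i As, x, q => msk β (As.getD x ∅) fun s =>
      if β s = i ∧ x.1 + 1 = As.length then
        - ∑ y : Fin (d + 1), if y.1 + 1 < As.length then q (s, y) else 0
      else q (s, x)

/-- The sum of the points of an object. -/
def uu {R : Type} [CommRing R] {d : ℕ} (β : ν → ℕ) (k : Kd) (q : ν × Fin (d + 1) → R) (s : ν) : R :=
  ∑ x : Fin (d + 1), if x.1 < k.nm then pt β k x q s else 0

/-- The direction `z`. -/
def zz {R : Type} [CommRing R] {d : ℕ} (β : ν → ℕ) (i : ℕ) (q : ν × Fin (d + 1) → R) (s : ν) : R :=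
  if β s = i then q (s, Fin.last d) else 0

/-- The indices of the conditions of the points: the member and the derivative. -/
abbrev Ra (d D : ℕ) (ν : Type) [Fintype ν] (k : Kd) : Type :=
  {r : Fin (d + 1) × (ν → ℕ) // r.1.1 < k.nm ∧ ∑ s, r.2 s + k.ex ≤ D}

/-- The indices of the additional conditions: `κ` and the derivative (only if `i ∈ I`). -/
def Rb (d D : ℕ) (β : ν → ℕ) (I : Finset ℕ) : Kd → Type
  | .ord _ _ => Empty
  | .cl e dl i As => {r : Fin (d + 1) × (ν → ℕ) // (i ∈ I ∧ 1 ≤ r.1.1 ∧ r.1.1 ≤ dl) ∧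
      (∀ s, β s = i → r.2 s = 0) ∧ As.length * (e - 1) + r.1.1 + ∑ s, r.2 s = D}

theorem finite_le (d D : ℕ) (P : Fin (d + 1) × (ν → ℕ) → Prop) (h : ∀ r, P r → ∑ s, r.2 s ≤ D) :
    Finite {r : Fin (d + 1) × (ν → ℕ) // P r} := by
  have h0 : {f : ν → ℕ | ∀ i, f i ∈ Set.Iic D}.Finite :=
    Set.Finite.pi' fun _ => Set.finite_Iic _
  have h1 : {r : Fin (d + 1) × (ν → ℕ) | P r} ⊆
      (Set.univ : Set (Fin (d + 1))) ×ˢ {f : ν → ℕ | ∀ i, f i ∈ Set.Iic D} := by
    rintro ⟨x, b⟩ hb
    refine ⟨Set.mem_univ _, fun i => ?_⟩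
    have h2 : b i ≤ ∑ s, b s := single_le_sum (f := b) (fun _ _ => Nat.zero_le _) (mem_univ i)
    exact h2.trans (h _ hb)
  exact ((Set.finite_univ.prod h0).subset h1).to_subtype

theorem finite_Ra (d D : ℕ) (k : Kd) : Finite (Ra d D ν k) :=
  finite_le d D _ fun r hr => by omega

theorem finite_Rb (d D : ℕ) (β : ν → ℕ) (I : Finset ℕ) (k : Kd) : Finite (Rb d D β I k) := by
  cases k with
  | ord e A => exact inferInstanceAs (Finite Empty)
  | cl e dl i As => exact finite_le d D _ fun r hr => by omega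

/-- The coefficients of the conditions of the points. -/
noncomputable def coa (d D : ℕ) (β : ν → ℕ) (k : Kd) (r : Ra d D ν k) (e : ν → ℕ) :
    MvPolynomial (ν × Fin (d + 1)) ℂ :=
  tcr (pt β k r.1.1 fun s => (X s : MvPolynomial (ν × Fin (d + 1)) ℂ)) e r.1.2

/-- The coefficients of the additional conditions. -/
noncomputable def cob (d D : ℕ) (β : ν → ℕ) (I : Finset ℕ) : (k : Kd) → Rb d D β I k → (ν → ℕ) →
    MvPolynomial (ν × Fin (d + 1)) ℂ
  | .ord _ _, r, _ => r.elim
  | .cl e dl i As, r, ex => ∑ g ∈ Pool.Agent.H21.NX.Sx ν (r.1.1.1 + ∑ s, r.1.2 s),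
      tcr (zz β i fun s => (X s : MvPolynomial (ν × Fin (d + 1)) ℂ)) g r.1.2 *
        tcr (uu β (.cl e dl i As) fun s => (X s : MvPolynomial (ν × Fin (d + 1)) ℂ)) ex g

/-- The system of the forms of degree `D` with the exponents `A`; the additional conditions of a cluster
created at the level `i` are imposed only if `i ∈ I`. -/
noncomputable def LSA (d D : ℕ) (β : ν → ℕ) (I : Finset ℕ) (A : Finset (ν → ℕ)) :
    Sys {a // a ∈ A} (ν × Fin (d + 1)) Kd where
  R := fun k => Ra d D ν k ⊕ Rb d D β I k
  fin := fun k => by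
    have h1 := finite_Ra (ν := ν) d D k
    have h2 := finite_Rb d D β I k
    exact Finite.instSum
  co := fun k r e => Sum.elim (fun r => coa d D β k r e.1) (fun r => cob d D β I k r e.1) r

/-- The exponents of degree `D` which meet the blocks of `I`. -/
def Ex (β : ν → ℕ) (D : ℕ) (I : Finset ℕ) : Finset (ν → ℕ) :=
  (Pool.Agent.H21.NX.Sx ν D).filter fun a => ∀ i ∈ I, ∃ s, β s = i ∧ a s ≠ 0

theorem mem_Ex {β : ν → ℕ} {D : ℕ} {I : Finset ℕ} {a : ν → ℕ} :
    a ∈ Ex β D I ↔ ∑ s, a s = D ∧ ∀ i ∈ I, ∃ s, β s = i ∧ a s ≠ 0 := by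
  unfold Ex
  rw [mem_filter, Pool.Agent.H21.NX.mem_Sx]

/-- The system of the forms of degree `D` which vanish on the `L_i`, `i ∈ I`. -/
noncomputable abbrev LS (d D : ℕ) (β : ν → ℕ) (I : Finset ℕ) :
    Sys {a // a ∈ Ex β D I} (ν × Fin (d + 1)) Kd :=
  LSA d D β I (Ex β D I)

/-- The general dimension. -/
noncomputable def HI (d D : ℕ) (β : ν → ℕ) (I : Finset ℕ) (ms : Multiset Kd) : ℕ :=
  gM (LS d D β I) ms

end

/-! ### The standard blocks -/

/-- The number of the block of the variable `s`: the blocks have the sizes `c 0, c 1, …`. -/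
def bidx (c : ℕ → ℕ) (s : ℕ) : ℕ := ((range (s + 1)).filter fun k => ∑ i ∈ range (k + 1), c i ≤ s).card

/-- The blocks of the sizes `c 0, c 1, …` of `n` variables. -/
def blk (c : ℕ → ℕ) (n : ℕ) (s : Fin n) : ℕ := bidx c s.1

/-- The general dimension on the level `j` in degree `D`. -/
noncomputable def HL (d D : ℕ) (c : ℕ → ℕ) (n j : ℕ) (ms : Multiset Kd) : ℕ :=
  HI d D (blk c n) (range j) ms

/-! ### Virtual dimensions -/

/-- `(1 - t)^(-N)`. -/
def hs (N : ℕ) : PowerSeries ℤ := PowerSeries.mk fun k => (Nat.multichoose N k : ℤ)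

/-- The factor of an object on `L_I'`. -/
noncomputable def Kd.P (I' : Finset ℕ) : Kd → PowerSeries ℤ
  | .ord e A => if I' ⊆ A then 1 - PowerSeries.X ^ e else 1
  | .cl e dl i As => if i ∈ I' then
        (if I'.erase i ⊆ inter As then 1 - PowerSeries.X ^ trx e dl As.length else 1)
      else (As.map fun A => if I' ⊆ A then 1 - PowerSeries.X ^ e else (1 : PowerSeries ℤ)).prod

/-- The virtual dimension in degree `D` of the forms which vanish on `L_i`, `i ∈ I`. -/
noncomputable def vd (D : ℕ) (I : Finset ℕ) (c : ℕ → ℕ) (n : ℕ) (ms : Multiset Kd) : ℤ :=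
  ∑ I' ∈ I.powerset, (-1) ^ I'.card *
    PowerSeries.coeff D ((ms.map (Kd.P I')).prod * hs (n - ∑ i ∈ I', c i))

/-! ### The step from the level `j` to the level `j + 1` -/

/-- The objects of the level `j` whose specialisation is the object of the level `j + 1`. -/
def un (j : ℕ) : Kd → Multiset Kd
  | .ord e A => {.ord e (A.erase j)}
  | .cl e dl i As => if i = j then ((As.map fun A => Kd.ord e (A.erase j) : List Kd) : Multiset Kd)
      else {.cl e dl i (As.map fun A => A.erase j)}

/-- The trace on `L_j` of the object of the level `j + 1`. -/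
def tr (j : ℕ) : Kd → Multiset Kd
  | .ord e A => if j ∈ A then {.ord e (A.erase j)} else 0
  | .cl e dl i As =>
      if i = j then {.ord (trx e dl As.length) (inter As)}
      else if ∀ A ∈ As, j ∈ A then {.cl e dl i (As.map fun A => A.erase j)}
      else (((As.filter fun A => j ∈ A).map fun A => Kd.ord e (A.erase j) : List Kd) : Multiset Kd)

/-- The kinds of the level `j`. -/
def Kd.Ok (d j : ℕ) : Kd → Prop
  | .ord e A => 1 ≤ e ∧ e ≤ d ∧ A ⊆ range j
  | .cl e dl i As => 2 ≤ e ∧ 1 ≤ As.length ∧ trx e dl As.length ≤ d ∧ i < j ∧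
      ∀ A ∈ As, A ⊆ (range j).erase i

/-- The simple points. -/
abbrev sm (d : ℕ) : Kd := .ord d ∅

/-- The points of an object: exponents and sets of the blocks on which they vanish. -/
def Kd.pts : Kd → Multiset (ℕ × Finset ℕ)
  | .ord e A => {(e, A)}
  | .cl e _ _ As => ((As.map fun A => (e, A) : List (ℕ × Finset ℕ)) : Multiset (ℕ × Finset ℕ))

/-- The number of the points of a configuration with the exponent `e` which vanish on the blocks of `A`
exactly. -/
def npt (ms : Multiset Kd) (e : ℕ) (A : Finset ℕ) : ℕ := (ms.bind Kd.pts).count (e, A)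

end Pool.Agent.GD
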