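import Pool.Agent.GD.TT

/-!
# General d: the virtual dimensions exist

`FF κ I` = sum over the families of pairwise disjoint nonempty subsets of `I` of the products of the `-κ S`.
-/

set_option autoImplicit false

namespace Pool.Agent.GD

open Finset

variable {ι : Type} [DecidableEq ι]

/-- the families of pairwise disjoint nonempty subsets of `I` -/
def Dj (I : Finset ι) : Finset (Finset (Finset ι)) :=
  I.powerset.powerset.filter fun P => ∅ ∉ P ∧ ∀ S ∈ P, ∀ T ∈ P, S ≠ T → Disjoint S T

theorem mem_Dj {I : Finset ι} {P : Finset (Finset ι)} : P ∈ Dj I ↔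
    (∀ S ∈ P, S ⊆ I) ∧ ∅ ∉ P ∧ ∀ S ∈ P, ∀ T ∈ P, S ≠ T → Disjoint S T := by
  unfold Dj
  rw [Finset.mem_filter, Finset.mem_powerset]
  refine and_congr ?_ Iff.rfl
  constructor
  · exact fun h S hS => Finset.mem_powerset.1 (h hS)
  · exact fun h S hS => Finset.mem_powerset.2 (h S hS)

/-- the virtual dimensions -/
def FF (κ : Finset ι → ℚ) (I : Finset ι) : ℚ := ∑ P ∈ Dj I, ∏ S ∈ P, -κ S

theorem isF_FF (κ : Finset ι → ℚ) : IsF κ (FF κ) := by
  classical
  constructor
  · unfold FF
    have h1 : Dj (∅ : Finset ι) = {∅} := by
      ext P
      rw [mem_Dj, Finset.mem_singleton]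
      constructor
      · rintro ⟨h1, h2, _⟩
        rw [Finset.eq_empty_iff_forall_notMem]
        intro S hS
        have h3 := Finset.subset_empty.1 (h1 S hS)
        exact h2 (h3 ▸ hS)
      · rintro rfl
        simp
    rw [h1, Finset.sum_singleton, Finset.prod_empty]
  · intro I i hi
    unfold FF
    rw [← Finset.sum_filter_add_sum_filter_not (Dj (insert i I)) (fun P => ∃ S ∈ P, i ∈ S)]
    have h1 : (Dj (insert i I)).filter (fun P => ¬ ∃ S ∈ P, i ∈ S) = Dj I := by
      ext P
      rw [Finset.mem_filter, mem_Dj, mem_Dj]
      constructor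
      · rintro ⟨⟨h1, h2⟩, h3⟩
        refine ⟨fun S hS => ?_, h2⟩
        have h4 := h1 S hS
        intro x hx
        rcases Finset.mem_insert.1 (h4 hx) with h5 | h5
        · subst h5
          exact absurd ⟨S, hS, hx⟩ h3
        · exact h5
      · rintro ⟨h1, h2⟩
        refine ⟨⟨fun S hS => (h1 S hS).trans (Finset.subset_insert _ _), h2⟩, ?_⟩
        rintro ⟨S, hS, h3⟩
        exact hi (h1 S hS h3)
    rw [h1]
    have h2 : ∑ P ∈ (Dj (insert i I)).filter (fun P => ∃ S ∈ P, i ∈ S), ∏ S ∈ P, -κ S =
        ∑ x ∈ I.powerset.sigma fun B => Dj (I \ B), -κ (insert i x.1) * ∏ S ∈ x.2, -κ S := by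
      symm
      have hni : ∀ x : (Σ _ : Finset ι, Finset (Finset ι)),
          x ∈ (I.powerset.sigma fun B => Dj (I \ B)) → ∀ T ∈ x.2, i ∉ T := by
        intro x hx T hT h
        rw [Finset.mem_sigma, Finset.mem_powerset, mem_Dj] at hx
        exact hi (Finset.mem_sdiff.1 (hx.2.1 T hT h)).1
      have hnm : ∀ x : (Σ _ : Finset ι, Finset (Finset ι)),
          x ∈ (I.powerset.sigma fun B => Dj (I \ B)) → insert i x.1 ∉ x.2 := by
        intro x hx h
        exact hni x hx _ h (Finset.mem_insert_self _ _)
      refine Finset.sum_bij (fun x _ => insert (insert i x.1) x.2) ?_ ?_ ?_ ?_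
      · intro x hx
        have hx' := hx
        rw [Finset.mem_sigma, Finset.mem_powerset, mem_Dj] at hx'
        obtain ⟨h3, h4, h5, h6⟩ := hx'
        rw [Finset.mem_filter, mem_Dj]
        refine ⟨⟨?_, ?_, ?_⟩, ⟨_, Finset.mem_insert_self _ _, Finset.mem_insert_self _ _⟩⟩
        · intro S hS
          rcases Finset.mem_insert.1 hS with rfl | hS
          · exact Finset.insert_subset_insert _ h3
          · exact ((h4 S hS).trans Finset.sdiff_subset).trans (Finset.subset_insert _ _)
        · intro h
          rcases Finset.mem_insert.1 h with h | h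
          · have : i ∈ (∅ : Finset ι) := by rw [h]; exact Finset.mem_insert_self _ _
            exact absurd this (Finset.notMem_empty _)
          · exact h5 h
        · have hd : ∀ T ∈ x.2, Disjoint (insert i x.1) T := by
            intro T hT
            rw [Finset.disjoint_left]
            intro y hy hyT
            rcases Finset.mem_insert.1 hy with rfl | hy
            · exact hni x hx T hT hyT
            · exact (Finset.mem_sdiff.1 (h4 T hT hyT)).2 hy
          intro S hS T hT hST
          rcases Finset.mem_insert.1 hS with hS | hS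
          · rcases Finset.mem_insert.1 hT with hT | hT
            · exact absurd (hS.trans hT.symm) hST
            · rw [hS]; exact hd T hT
          · rcases Finset.mem_insert.1 hT with hT | hT
            · rw [hT]; exact (hd S hS).symm
            · exact h6 S hS T hT hST
      · rintro ⟨B, P⟩ hx ⟨B', P'⟩ hx' h
        have h3 : insert i B ∈ insert (insert i B') P' := by
          have h4 : insert i B ∈ insert (insert i B) P := Finset.mem_insert_self _ _
          rw [show insert (insert i B) P = insert (insert i B') P' from h] at h4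
          exact h4
        have hxB := (Finset.mem_sigma.1 hx).1
        have hxB' := (Finset.mem_sigma.1 hx').1
        rw [Finset.mem_powerset] at hxB hxB'
        have h4 : insert i B = insert i B' := by
          rcases Finset.mem_insert.1 h3 with h4 | h4
          · exact h4
          · exact absurd (Finset.mem_insert_self i B) (hni _ hx' _ h4)
        have h5 : B = B' := by
          have h6 := congrArg (fun T => T.erase i) h4
          simp only [Finset.erase_insert (fun h => hi (hxB h) : i ∉ B),
            Finset.erase_insert (fun h => hi (hxB' h) : i ∉ B')] at h6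
          exact h6
        subst h5
        have h6 : P = P' := by
          have h7 := congrArg (fun T => T.erase (insert i B)) h
          simp only [Finset.erase_insert (hnm _ hx : insert i B ∉ P),
            Finset.erase_insert (hnm _ hx' : insert i B ∉ P')] at h7
          exact h7
        rw [h6]
      · intro P hP
        rw [Finset.mem_filter, mem_Dj] at hP
        obtain ⟨⟨h3, h4, h5⟩, S, hS, hiS⟩ := hP
        refine ⟨⟨S.erase i, P.erase S⟩, ?_, ?_⟩
        · rw [Finset.mem_sigma, Finset.mem_powerset, mem_Dj]
          refine ⟨?_, ?_, ?_, ?_⟩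
          · exact Finset.subset_insert_iff.1 (h3 S hS)
          · intro T hT
            have hTP := Finset.mem_of_mem_erase hT
            have hd := h5 T hTP S hS (Finset.ne_of_mem_erase hT)
            rw [Finset.disjoint_left] at hd
            intro x hx
            refine Finset.mem_sdiff.2 ⟨?_, fun h => hd hx (Finset.mem_of_mem_erase h)⟩
            rcases Finset.mem_insert.1 (h3 T hTP hx) with rfl | h
            · exact absurd hiS (hd hx)
            · exact h
          · exact fun h => h4 (Finset.mem_of_mem_erase h)
          · exact fun T hT T' hT' => h5 T (Finset.mem_of_mem_erase hT) T' (Finset.mem_of_mem_erase hT')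
        · show insert (insert i (S.erase i)) (P.erase S) = P
          rw [Finset.insert_erase hiS, Finset.insert_erase hS]
      · intro x hx
        rw [Finset.prod_insert (hnm x hx)]
    rw [h2, Finset.sum_sigma]
    have h3 : ∀ B ∈ I.powerset, ∑ P ∈ Dj (I \ B), -κ (insert i B) * ∏ S ∈ P, -κ S =
        -(κ (insert i B) * ∑ P ∈ Dj (I \ B), ∏ S ∈ P, -κ S) := by
      intro B _
      rw [← Finset.mul_sum, neg_mul]
    rw [Finset.sum_congr rfl h3, Finset.sum_neg_distrib]
    ring

theorem exists_F (κ : Finset ι → ℚ) : ∃ F, IsF κ F := ⟨FF κ, isF_FF κ⟩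

/-- the virtual dimensions are unique -/
theorem IsF.unique {κ F F' : Finset ι → ℚ} (h : IsF κ F) (h' : IsF κ F') : F = F' := by
  funext I
  induction I using Finset.strongInduction with
  | H I ih =>
    rcases I.eq_empty_or_nonempty with rfl | ⟨i, hi⟩
    · rw [h.empty, h'.empty]
    · have h1 : I = insert i (I.erase i) := (Finset.insert_erase hi).symm
      rw [h1, h.step _ _ (Finset.notMem_erase _ _), h'.step _ _ (Finset.notMem_erase _ _),
        ih _ (Finset.erase_ssubset hi)]
      congr 1
      refine Finset.sum_congr rfl fun B _ => ?_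
      rw [ih _ (Finset.sdiff_subset.trans_ssubset (Finset.erase_ssubset hi))]

end Pool.Agent.GD
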