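import Pool.Agent.H51.TB.Win

/-!
# General d, tensor systems with slots of different dimensions: definitions

Slots `ι`, the slot `i` has dimension `c i`.  A tensor is a function `F : (∀ i, Fin (c i)) → ℂ`.  A
point of kind `S : Finset ι` is a family of vectors `y i ∈ ℂ^(c i)` (only `i ∈ S` are used); it imposes
the conditions `∑_{e = w off S} (∏_{i ∈ S} y i (e i)) F e = 0` for all `w`, i.e. the contraction of
`F` with the pure tensor of the `y i`, `i ∈ S`, vanishes.

`IsF κ F`: `F I` is the (normalized) virtual dimension of the system on the slots `I` with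
`κ S * ∏_{i ∈ S} c i` points of kind `S`, divided by `∏_{i ∈ I} c i`.
-/

set_option autoImplicit false

namespace Pool.Agent.GD

open Finset MvPolynomial Pool.Agent.H51.TB

/-- The tensor system. -/
noncomputable def TS (ι : Type) [Fintype ι] [DecidableEq ι] (c : ι → ℕ) :
    Sys (∀ i, Fin (c i)) (Σ i, Fin (c i)) (Finset ι) where
  R := fun _ => ∀ i, Fin (c i)
  fin := fun _ => inferInstance
  co := fun S w e => if ∀ j, j ∉ S → e j = w j then ∏ j ∈ S, X ⟨j, e j⟩ else 0

variable {ι : Type} [Fintype ι] [DecidableEq ι] {c : ι → ℕ}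

/-- The contraction of a tensor with the pure tensor of the `y j`, `j ∈ S`, at the index `w`. -/
noncomputable def ctr (S : Finset ι) (y : (Σ i, Fin (c i)) → ℂ) (F : (∀ i, Fin (c i)) → ℂ)
    (w : ∀ i, Fin (c i)) : ℂ :=
  ∑ e : ∀ i, Fin (c i), if ∀ j, j ∉ S → e j = w j then (∏ j ∈ S, y ⟨j, e j⟩) * F e else 0

theorem mem_TS {κ : Type} (m : κ → Finset ι) (p : κ → (Σ i, Fin (c i)) → ℂ)
    (F : (∀ i, Fin (c i)) → ℂ) : F ∈ (TS ι c).V m p ↔ ∀ i w, ctr (m i) (p i) F w = 0 := by
  rw [Sys.mem_V]
  refine forall_congr' fun i => forall_congr' fun w => ?_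
  have h : ∑ e, eval (p i) ((TS ι c).co (m i) w e) * F e = ctr (m i) (p i) F w := by
    unfold ctr
    refine sum_congr rfl fun e _ => ?_
    show eval (p i) (if ∀ j, j ∉ m i → e j = w j then ∏ j ∈ m i, X ⟨j, e j⟩ else 0) * F e = _
    split_ifs
    · rw [map_prod]
      simp
    · simp
  rw [h]

/-- The normalized virtual dimensions: `κ S` is the density of the points of kind `S`. -/
structure IsF (κ F : Finset ι → ℚ) : Prop where
  empty : F ∅ = 1
  step : ∀ (I : Finset ι) (i : ι), i ∉ I →
    F (insert i I) = F I - ∑ B ∈ I.powerset, κ (insert i B) * F (I \ B)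

end Pool.Agent.GD
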